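import Pool.Agent.H.MP_c4a975_al.A

set_option autoImplicit false
open Pool.Agent.H.MP_c4a975_al

namespace Pool.Agent.Results.MP_c4a975_al.CharTwo

theorem result : ∃ (R : Type) (_ : NonUnitalNonAssocRing R), (∀ x y : R, x * y * y = x * (y * y)) ∧
    ∃ I : TwoSidedIdeal R, I ≠ ⊥ ∧ (∀ J : TwoSidedIdeal R, J ≤ I → J = ⊥ ∨ J = I) ∧
      (∃ K : AddSubgroup R, K ≠ ⊥ ∧ (K : Set R) ⊂ I ∧ ∀ a ∈ I, ∀ k ∈ K, a * k ∈ K ∧ k * a ∈ K) ∧
      (∀ n : ℕ, (fun A : Set R => (AddSubgroup.closure (Set.image2 (· * ·) A A) : Set R))^[n] I ≠ {0}) ∧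
      ∀ n : ℕ, (fun A : Set R => (AddSubgroup.closure (Set.image2 (· * ·) A I) : Set R))^[n] I ≠ {0} := by
  let I : TwoSidedIdeal R := .mk' {x | x.2.2 = 0} rfl (fun {x y} => by revert x y; decide)
    (fun {x} => by revert x; decide) (fun _ => rfl) fun _ => rfl
  have hI : ∀ x, x ∈ I ↔ x.2.2 = 0 := fun x => TwoSidedIdeal.mem_mk' ..
  have h1 : mk 1 0 0 ∈ I := (hI _).mpr rfl
  have h2 : ∀ F : Set R → Set R, (∀ A, mk 1 0 0 ∈ A → mk 1 0 0 ∈ F A) → ∀ n, F^[n] I ≠ {0} := fun F h n e => by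
    have : mk 1 0 0 ∈ F^[n] I := Function.Iterate.rec (fun A : Set R => mk 1 0 0 ∈ A) h1 h n
    rw [e] at this
    exact absurd (Set.mem_singleton_iff.mp this) (by decide)
  refine ⟨R, inferInstance, by decide, I, fun e => ?_, fun J hJ => ?_, ⟨⟨⟨⟨{x | x.1 = 0 ∧ x.2.2 = 0},
    fun {x y} => by revert x y; decide⟩, ⟨rfl, rfl⟩⟩, fun {x} => by revert x; decide⟩, fun e => ?_,
    ⟨fun x h => (hI x).mpr h.2, fun h => absurd (h h1).1 (by decide)⟩, fun a ha k hk => ?_⟩,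
    h2 _ fun A h => AddSubgroup.subset_closure ⟨_, h, _, h, by decide⟩,
    h2 _ fun A h => AddSubgroup.subset_closure ⟨_, h, _, h1, by decide⟩⟩
  · rw [e, TwoSidedIdeal.mem_bot] at h1
    exact absurd h1 (by decide)
  · refine or_iff_not_imp_left.mpr fun h => le_antisymm hJ fun x hx => ?_
    obtain ⟨y, hy, h0⟩ : ∃ y ∈ J, y ≠ 0 := by
      by_contra! h'
      exact h (eq_bot_iff.mpr fun y hy => (TwoSidedIdeal.mem_bot _).mpr (h' y hy))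
    have : ∀ x y : R, x.2.2 = 0 → y.2.2 = 0 → y ≠ 0 → ∃ a b, x = y * a * b := by decide
    obtain ⟨a, b, rfl⟩ := this x y ((hI x).mp hx) ((hI y).mp (hJ hy)) h0
    exact J.mul_mem_right _ _ (J.mul_mem_right _ _ hy)
  · exact absurd (AddSubgroup.mem_bot.mp (e.le (show mk 0 1 0 ∈ _ from ⟨rfl, rfl⟩))) (by decide)
  · have : ∀ a k : R, a.2.2 = 0 → k.1 = 0 ∧ k.2.2 = 0 → ((a * k).1 = 0 ∧ (a * k).2.2 = 0) ∧
      (k * a).1 = 0 ∧ (k * a).2.2 = 0 := by decide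
    exact this a k ((hI a).mp ha) hk

end Pool.Agent.Results.MP_c4a975_al.CharTwo
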